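import Pool.Agent.W123.PP.Multi2

set_option autoImplicit false

/-!
# The gaps between primes do not concentrate, in all windows around almost all primes

For every `θ > 0`, every `α < 1` and every `ε > 0` there is `c > 0` such that all but
`ε Y / log X` of the primes `p` of every interval `(X, X + Y]`, `X ^ θ ≤ Y ≤ X`, have the following
property: for ALL resolutions `μ` between `1 / log X` and `1`, for ALL `s, t ≤ Y` with
`s + t ≥ log X / (c μ ^ α)` and ALL real `lam`, the window `(p - s, p + t]` contains at least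
`c (s + t) / log X` primes, and for at most a proportion `μ ^ α / c` of them the distance to the
next prime is between `lam log X` and `(lam + μ) log X`.
-/

namespace Pool.Agent.Results.MP_3bc45c_nt.LocalAlmostLipschitz

open Finset Filter

/-- the distance from `q` to the next prime -/
noncomputable def gap (q : ℕ) : ℕ := sInf {d : ℕ | 0 < d ∧ (q + d).Prime}

open Classical in
/-- no window around `p` has few primes or a concentration of gaps, at any resolution `μ` -/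
def Spread (α c : ℝ) (X Y p : ℕ) : Prop :=
  ∀ μ : ℝ, 1 / Real.log X ≤ μ → μ ≤ 1 → ∀ s t : ℕ, s ≤ Y → t ≤ Y →
    Real.log X ≤ c * μ ^ α * (s + t) →
    c * (s + t) / Real.log X ≤ (((Finset.Ioc (p - s) (p + t)).filter Nat.Prime).card : ℝ) ∧
    ∀ lam : ℝ,
      (((Finset.Ioc (p - s) (p + t)).filter (fun q => q.Prime ∧
        lam * Real.log X ≤ (gap q : ℝ) ∧ (gap q : ℝ) ≤ (lam + μ) * Real.log X)).card : ℝ) ≤
      μ ^ α / c * (((Finset.Ioc (p - s) (p + t)).filter Nat.Prime).card : ℝ)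

open Pool.Agent.W123.PP Pool.Agent.W123.RP Pool.Agent.W123.GS Pool.Agent.W123.PP.NoCon
  Pool.Agent.W123.PP.Holder Pool.Agent.W123.PP.Multi

open Classical in
/-- **The gaps do not concentrate at any resolution.** -/
theorem result : ∀ θ : ℝ, 0 < θ → θ ≤ 1 → ∀ α : ℝ, 0 < α → α < 1 → ∀ ε : ℝ, 0 < ε →
    ∃ c : ℝ, 0 < c ∧ ∀ᶠ X : ℕ in atTop, ∀ Y : ℕ, (X : ℝ) ^ θ ≤ Y → Y ≤ X →
      (((Finset.Ioc X (X + Y)).filter (fun p => p.Prime ∧ ¬ Spread α c X Y p)).card : ℝ) ≤
        ε * Y / Real.log X := by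
  intro θ h0 h1 α hα0 hα ε hε
  obtain ⟨c00, Lam, hc00, hLam, hwin⟩ := set_windows θ h0 h1 (ε / 2) (by positivity)
  obtain ⟨c0, hc0def⟩ : ∃ c0 : ℝ, c0 = min c00 1 := ⟨_, rfl⟩
  have hc0 : 0 < c0 := by rw [hc0def]; positivity
  have hc00' : c0 ≤ c00 := by rw [hc0def]; exact min_le_left _ _
  have hc01 : c0 ≤ 1 := by rw [hc0def]; exact min_le_right _ _
  obtain ⟨δ, hδ⟩ : ∃ δ : ℝ, δ = min 1 (c0 / 4) := ⟨_, rfl⟩
  obtain ⟨K, hwin⟩ := hwin δ (by rw [hδ]; positivity)
  obtain ⟨c1, hc1def⟩ : ∃ c1 : ℝ, c1 = min (c0 / 4) (1 / (3 * Lam)) := ⟨_, rfl⟩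
  have hc1 : 0 < c1 := by rw [hc1def]; positivity
  have hc1a : c1 ≤ c0 / 4 := by rw [hc1def]; exact min_le_left _ _
  have hc1b : c1 ≤ 1 / (3 * Lam) := by rw [hc1def]; exact min_le_right _ _
  -- the number of gaps
  obtain ⟨m, hm, hαm⟩ : ∃ m : ℕ, 1 ≤ m ∧ α * ((m + 2 : ℕ) : ℝ) < (m : ℝ) := by
    obtain ⟨m, hm⟩ := exists_nat_gt (2 * α / (1 - α))
    have h1α : 0 < 1 - α := by linarith
    have h2 : 0 < 2 * α / (1 - α) := by positivity
    have h3 : (0 : ℝ) < m := by linarith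
    refine ⟨m, by exact_mod_cast h3, ?_⟩
    rw [div_lt_iff₀ h1α] at hm
    push_cast
    linarith
  have hmr : (1 : ℝ) ≤ m := by exact_mod_cast hm
  obtain ⟨C6, hC6, hone⟩ := one_scale_n m hm θ h0 c00 Lam c0 c1 δ K hc0 hc00' hc01 hLam hc1 hc1a hc1b hδ
  -- the ratio of the scales
  obtain ⟨r, hr⟩ : ∃ r : ℝ, r = (1 / 2 : ℝ) ^ α := ⟨_, rfl⟩
  have hr0 : 0 < r := by rw [hr]; positivity
  have hr3 : (1 / 2 : ℝ) ^ m < r ^ (m + 2) := by
    rw [hr, ← Real.rpow_natCast, ← Real.rpow_natCast, ← Real.rpow_mul (by norm_num)]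
    exact Real.rpow_lt_rpow_of_exponent_gt (by norm_num) (by norm_num) hαm
  obtain ⟨w, hw⟩ : ∃ w : ℝ, w = (1 / 2) ^ m / r ^ (m + 2) := ⟨_, rfl⟩
  have hw0 : 0 < w := by rw [hw]; positivity
  have hw1 : w < 1 := by rw [hw, div_lt_one (by positivity)]; exact hr3
  have h1w : 0 < 1 - w := by linarith
  obtain ⟨B, hB⟩ : ∃ B : ℝ, B = max 1 (2 * C6 / (ε * (1 - w))) := ⟨_, rfl⟩
  have hB1 : 1 ≤ B := by rw [hB]; exact le_max_left _ _
  have hB2 : 2 * C6 / (ε * (1 - w)) ≤ B := by rw [hB]; exact le_max_right _ _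
  have hB0 : 0 < B := by linarith
  obtain ⟨c, hcdef⟩ : ∃ c : ℝ, c = min (c1 / (16 * m)) (r / B) := ⟨_, rfl⟩
  have hc : 0 < c := by rw [hcdef]; positivity
  have hca : c ≤ c1 / (16 * m) := by rw [hcdef]; exact min_le_left _ _
  have hcb : c ≤ r / B := by rw [hcdef]; exact min_le_right _ _
  have hcc1 : c ≤ c1 := by
    refine hca.trans ?_
    rw [div_le_iff₀ (by positivity)]
    nlinarith
  refine ⟨c, hc, ?_⟩
  have hXr : Tendsto (fun X : ℕ => (X : ℝ)) atTop atTop := tendsto_natCast_atTop_atTop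
  have hlogX : Tendsto (fun X : ℕ => Real.log (X : ℝ)) atTop atTop :=
    Real.tendsto_log_atTop.comp hXr
  filter_upwards [hwin, hone, hlogX.eventually_ge_atTop 2, growth θ h0,
    eventually_ge_atTop 3] with X hX hXone hL2 hgr hX3
  intro Y hY hYX
  have hbad : ((Bad c00 Lam δ K X Y).card : ℝ) ≤ ε / 2 * Y / Real.log X :=
    hX Y hY hYX PrP (fun n hn => hn)
  obtain ⟨L, hLdef⟩ : ∃ L : ℝ, L = Real.log X := ⟨_, rfl⟩
  rw [← hLdef] at hbad hL2 ⊢
  have hL0 : 0 < L := by linarith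
  have hLY : L ≤ Y := by
    have k1 : L ≤ 12 * L ^ 4 := by
      have k2 : (1 : ℝ) ≤ L ^ 3 := one_le_pow₀ (by linarith)
      nlinarith
    have hX1r : (1 : ℝ) ≤ X := by exact_mod_cast (by omega : 1 ≤ X)
    have k3 : (X : ℝ) ^ (θ / 2) ≤ (X : ℝ) ^ θ := Real.rpow_le_rpow_of_exponent_le hX1r (by linarith)
    rw [← hLdef] at hgr
    linarith
  obtain ⟨Q, hQ⟩ : ∃ Q : ℕ → Prop, Q = fun i => 1 ≤ (1 / 2 : ℝ) ^ i * L ∧ B * r ^ i ≤ 1 := ⟨_, rfl⟩
  have hscale : ∀ i : ℕ, Q i → ((Bd m c00 Lam δ c1 (B * r ^ i) ((1 / 2 : ℝ) ^ i) K X Y).card : ℝ) ≤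
      C6 / B ^ (m + 2) * w ^ i * Y / L := by
    intro i hi
    rw [hQ] at hi
    have h2 := hXone Y hY hYX ((1 / 2 : ℝ) ^ i) (B * r ^ i) (by rw [← hLdef]; exact hi.1)
      (pow_le_one₀ (by norm_num) (by norm_num)) (by positivity) hi.2
    rw [← hLdef] at h2
    refine h2.trans (le_of_eq ?_)
    have e1 : ((1 / 2 : ℝ) ^ i) ^ m / (B * r ^ i) ^ (m + 2) = w ^ i / B ^ (m + 2) := by
      have e0 : w ^ i = ((1 / 2 : ℝ) ^ i) ^ m / (r ^ i) ^ (m + 2) := by
        have e3 : (r ^ (m + 2)) ^ i = (r ^ i) ^ (m + 2) := by rw [← pow_mul, ← pow_mul, mul_comm]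
        have e4 : (((1 : ℝ) / 2) ^ m) ^ i = ((1 / 2) ^ i) ^ m := by
          rw [← pow_mul, ← pow_mul, mul_comm]
        rw [hw, div_pow (((1 : ℝ) / 2) ^ m) (r ^ (m + 2)) i, e3, e4]
      rw [e0, mul_pow, div_div, mul_comm (B ^ (m + 2))]
    rw [e1]
    ring
  -- the primes of all scales
  obtain ⟨U, hU⟩ : ∃ U : Finset ℕ, U = ((range (⌊L⌋₊ + 1)).filter Q).biUnion
    (fun i => Bd m c00 Lam δ c1 (B * r ^ i) ((1 / 2 : ℝ) ^ i) K X Y) := ⟨_, rfl⟩
  have hUc : (U.card : ℝ) ≤ ε / 2 * Y / L := by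
    have h2 : (U.card : ℝ) ≤ ∑ i ∈ (range (⌊L⌋₊ + 1)).filter Q,
        ((Bd m c00 Lam δ c1 (B * r ^ i) ((1 / 2 : ℝ) ^ i) K X Y).card : ℝ) := by
      rw [hU]
      exact_mod_cast Finset.card_biUnion_le
    have h3 : ∑ i ∈ (range (⌊L⌋₊ + 1)).filter Q,
        ((Bd m c00 Lam δ c1 (B * r ^ i) ((1 / 2 : ℝ) ^ i) K X Y).card : ℝ) ≤
        ∑ i ∈ (range (⌊L⌋₊ + 1)).filter Q, C6 / B ^ (m + 2) * w ^ i * Y / L := by
      apply Finset.sum_le_sum
      intro i hi
      rw [mem_filter] at hi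
      exact hscale i hi.2
    have h4 : ∑ i ∈ (range (⌊L⌋₊ + 1)).filter Q, C6 / B ^ (m + 2) * w ^ i * Y / L ≤
        ∑ i ∈ range (⌊L⌋₊ + 1), C6 / B ^ (m + 2) * w ^ i * Y / L := by
      apply Finset.sum_le_sum_of_subset_of_nonneg (Finset.filter_subset _ _)
      intro i _ _
      positivity
    have h5 : ∑ i ∈ range (⌊L⌋₊ + 1), C6 / B ^ (m + 2) * w ^ i * Y / L =
        (C6 / B ^ (m + 2) * Y / L) * ∑ i ∈ range (⌊L⌋₊ + 1), w ^ i := by
      rw [Finset.mul_sum]
      apply Finset.sum_congr rfl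
      intro i _
      ring
    have h6 : ∑ i ∈ range (⌊L⌋₊ + 1), w ^ i ≤ 1 / (1 - w) := by
      rw [geom_sum_eq hw1.ne, le_div_iff₀ h1w]
      have e2 : (w ^ (⌊L⌋₊ + 1) - 1) / (w - 1) * (1 - w) = 1 - w ^ (⌊L⌋₊ + 1) := by
        have : w - 1 ≠ 0 := by linarith
        field_simp
        ring
      rw [e2]
      linarith [pow_pos hw0 (⌊L⌋₊ + 1)]
    have h7 : (C6 / B ^ (m + 2) * Y / L) * (1 / (1 - w)) ≤ ε / 2 * Y / L := by
      have h8 : 2 * C6 ≤ B ^ (m + 2) * (ε * (1 - w)) := by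
        rw [div_le_iff₀ (by positivity)] at hB2
        have h9 : B ≤ B ^ (m + 2) := by
          calc B = B ^ 1 := (pow_one B).symm
            _ ≤ B ^ (m + 2) := pow_le_pow_right₀ hB1 (by omega)
        refine hB2.trans ?_
        gcongr
      have h10 : C6 / B ^ (m + 2) * (1 / (1 - w)) ≤ ε / 2 := by
        rw [div_mul_div_comm, mul_one, div_le_iff₀ (by positivity)]
        linarith
      calc (C6 / B ^ (m + 2) * Y / L) * (1 / (1 - w)) = C6 / B ^ (m + 2) * (1 / (1 - w)) * (Y / L) := by ring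
        _ ≤ ε / 2 * (Y / L) := by gcongr
        _ = ε / 2 * Y / L := by ring
    have h11 : (C6 / B ^ (m + 2) * Y / L) * ∑ i ∈ range (⌊L⌋₊ + 1), w ^ i ≤
        (C6 / B ^ (m + 2) * Y / L) * (1 / (1 - w)) := by gcongr
    linarith
  have hsub : (Finset.Ioc X (X + Y)).filter (fun p => p.Prime ∧ ¬ Spread α c X Y p) ⊆
      Bad c00 Lam δ K X Y ∪ U := by
    intro p hp
    rw [mem_filter] at hp
    obtain ⟨hpI, hpp, hpS⟩ := hp
    rw [mem_union]
    by_contra hcon
    push Not at hcon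
    obtain ⟨hpB, hpU⟩ := hcon
    apply hpS
    obtain ⟨-, hlow⟩ := low c00 Lam c0 c1 δ K hc0 hc00' hc01 hLam hc1 hc1a hc1b hδ X Y p
      (by rw [← hLdef]; exact hL2) (by rw [← hLdef]; exact hLY) hYX hpI hpp hpB
    rw [← hLdef] at hlow
    intro μ hμ0 hμ1 s t hs ht hst
    rw [← hLdef] at hμ0 hst ⊢
    have hμ : 0 < μ := lt_of_lt_of_le (by positivity) hμ0
    have hμα : 0 < μ ^ α := Real.rpow_pos_of_pos hμ α
    have hμα1 : μ ^ α ≤ 1 := Real.rpow_le_one hμ.le hμ1 hα0.le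
    have hst0 : (0 : ℝ) ≤ (s : ℝ) + t := by positivity
    have hst1 : L ≤ c1 * (s + t) := by
      refine hst.trans (mul_le_mul_of_nonneg_right ?_ hst0)
      nlinarith
    have hlow1 := hlow s t hs ht hst1
    have hco : (((Finset.Ioc (p - s) (p + t)).filter Nat.Prime).card : ℝ) =
        (co Nat.Prime (p - s) (p + t) : ℝ) := by unfold co; congr!
    rw [hco]
    refine ⟨?_, ?_⟩
    · refine le_trans ?_ hlow1
      gcongr
    · intro lam
      obtain ⟨i, hi1, hi2⟩ := exists_nat_pow_near_of_lt_one hμ hμ1 (by norm_num : (0 : ℝ) < 1 / 2)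
        (by norm_num)
      have hri : (((1 : ℝ) / 2) ^ i) ^ α = r ^ i := by
        rw [hr, ← Real.rpow_natCast, ← Real.rpow_natCast, ← Real.rpow_mul (by norm_num),
          ← Real.rpow_mul (by norm_num), mul_comm]
      have hri1 : (((1 : ℝ) / 2) ^ (i + 1)) ^ α = r ^ (i + 1) := by
        rw [hr, ← Real.rpow_natCast, ← Real.rpow_natCast, ← Real.rpow_mul (by norm_num),
          ← Real.rpow_mul (by norm_num), mul_comm]
      have hμr : μ ^ α ≤ r ^ i := by
        rw [← hri]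
        exact Real.rpow_le_rpow hμ.le hi2 hα0.le
      have hμr1 : r ^ (i + 1) ≤ μ ^ α := by
        rw [← hri1]
        exact Real.rpow_le_rpow (by positivity) hi1.le hα0.le
      have hρμ : B * r ^ i ≤ μ ^ α / c := by
        rw [le_div_iff₀ hc]
        calc B * r ^ i * c ≤ B * r ^ i * (r / B) := by gcongr
          _ = r ^ (i + 1) := by field_simp; ring
          _ ≤ μ ^ α := hμr1
      have hcon2 : (((Finset.Ioc (p - s) (p + t)).filter (fun q => q.Prime ∧
          lam * L ≤ (gap q : ℝ) ∧ (gap q : ℝ) ≤ (lam + μ) * L)).card : ℝ) ≤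
          ((NoCon.Con (p - s) (p + t) (lam * L) ((lam + (1 / 2 : ℝ) ^ i) * L)).card : ℝ) := by
        have h2 : (Finset.Ioc (p - s) (p + t)).filter (fun q => q.Prime ∧
            lam * L ≤ (gap q : ℝ) ∧ (gap q : ℝ) ≤ (lam + μ) * L) ⊆
            NoCon.Con (p - s) (p + t) (lam * L) ((lam + (1 / 2 : ℝ) ^ i) * L) := by
          intro q hq
          rw [mem_filter, mem_Ioc] at hq
          rw [mem_Con]
          refine ⟨hq.1, hq.2.1, hq.2.2.1, hq.2.2.2.trans ?_⟩
          gcongr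
        exact_mod_cast card_le_card h2
      refine hcon2.trans ?_
      have hN0 : (0 : ℝ) ≤ (co Nat.Prime (p - s) (p + t) : ℝ) := Nat.cast_nonneg _
      refine le_trans ?_ (mul_le_mul_of_nonneg_right hρμ hN0)
      rcases le_or_gt (B * r ^ i) 1 with hcase | hcase
      · have hLi : 1 ≤ (1 / 2 : ℝ) ^ i * L := by
          have h2 : 1 ≤ μ * L := by rwa [div_le_iff₀ hL0] at hμ0
          refine h2.trans ?_
          gcongr
        have hQi : Q i := by rw [hQ]; exact ⟨hLi, hcase⟩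
        have hir : i ∈ (range (⌊L⌋₊ + 1)).filter Q := by
          rw [mem_filter, mem_range]
          refine ⟨?_, hQi⟩
          have h2 : (i : ℝ) ≤ L := by
            have h3 : (i : ℝ) ≤ (2 : ℝ) ^ i := by
              have : i < 2 ^ i := Nat.lt_two_pow_self
              exact_mod_cast this.le
            have h4 : (2 : ℝ) ^ i ≤ L := by
              have h5 : (1 / 2 : ℝ) ^ i = 1 / (2 : ℝ) ^ i := by rw [div_pow, one_pow]
              rw [h5, div_mul_eq_mul_div, one_mul, le_div_iff₀ (by positivity), one_mul] at hLi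
              exact hLi
            linarith
          have h3 : i ≤ ⌊L⌋₊ := Nat.le_floor h2
          omega
        have hnot : p ∉ Bd m c00 Lam δ c1 (B * r ^ i) ((1 / 2 : ℝ) ^ i) K X Y := by
          intro h
          apply hpU
          rw [hU, mem_biUnion]
          exact ⟨i, hir, h⟩
        unfold Multi.Bd at hnot
        rw [mem_filter, not_and, not_and, not_and, not_not] at hnot
        have hSp := hnot hpI hpp hpB
        have h2 := hSp s t hs ht (by
          rw [← hLdef]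
          refine hst.trans (mul_le_mul_of_nonneg_right ?_ hst0)
          have h3 : r ^ i ≤ B * r ^ i := by
            have : 0 < r ^ i := by positivity
            nlinarith
          calc c * μ ^ α ≤ c1 / (16 * m) * (B * r ^ i) := by
                gcongr
                exact hμr.trans h3
            _ = B * r ^ i * c1 / (16 * m) := by ring) lam
        rw [← hLdef] at h2
        exact h2
      · have h2 : ((NoCon.Con (p - s) (p + t) (lam * L) ((lam + (1 / 2 : ℝ) ^ i) * L)).card : ℝ) ≤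
            (co Nat.Prime (p - s) (p + t) : ℝ) := by
          have h3 : NoCon.Con (p - s) (p + t) (lam * L) ((lam + (1 / 2 : ℝ) ^ i) * L) ⊆
              (Ioc (p - s) (p + t)).filter Nat.Prime := by
            intro q hq
            rw [mem_Con] at hq
            rw [mem_filter, mem_Ioc]
            exact ⟨hq.1, hq.2.1⟩
          unfold co
          have := card_le_card h3
          exact_mod_cast this.trans (le_of_eq (by congr!))
        refine h2.trans ?_
        nlinarith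
  have hcard := (card_le_card hsub).trans (card_union_le _ _)
  have hcardR : (((Finset.Ioc X (X + Y)).filter (fun p => p.Prime ∧ ¬ Spread α c X Y p)).card : ℝ) ≤
      ((Bad c00 Lam δ K X Y).card : ℝ) + U.card := by exact_mod_cast hcard
  have htot : ε * Y / L = ε / 2 * Y / L + ε / 2 * Y / L := by ring
  rw [htot]
  linarith

end Pool.Agent.Results.MP_3bc45c_nt.LocalAlmostLipschitz
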