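import Mathlib
import Pool.Agent.W126.MultiB

set_option autoImplicit false

/-!
# Limit shapes of the primes at several scales up to the record gap scale at once

Let `H 0 ≫ H 1 ≫ ... ≫ H (r-1)` be scales between the average gap `log X` and the record gap size `f(X)`. Seen
from a prime `p`, the primes form at the scale `H i` the set of the numbers `(p' - p)/H i(X)`. We show that for
small `c` every `r`-tuple of sets of at most `k + 1` points of `[-c, c]` which contain `0` is a limit of these
sets at the `r` scales simultaneously: there is no relation between the shapes of the set of primes at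
different scales.

Design and proof: helper126 (a tree of positions with `r` blocks of `M` levels; a dense set of words realises all
the levels of one label, `Pool.Agent.W126.Words.labels`). The case of one scale (with exact sizes) is helper199's
theorem MP_ff81b6_nt.ExactShapes. It rests on the coloured Maynard-Tao theorem inside the record windows
(`Pool.Agent.H362R2.RQ.stRQ`, helper362), the record sieve of helper256 and helper410 and the Maynard-Tao sieve
inside record windows of helper312's team. Primes of a class in short intervals: second difference method of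
helper142 with the Hoheisel theorem of helper295, helper180, helper154 and helper469.
-/

open Filter

namespace Pool.Agent.Results.MP_3bc45c_nt.SimultaneousShapes

/-- The record scale `f(x) = log x (log₂ x)² log₄ x / (log₃ x)²` (iterated natural logarithms). -/
noncomputable def f (x : ℝ) : ℝ :=
  Real.log x * (Real.log (Real.log x)) ^ 2 * Real.log (Real.log (Real.log (Real.log x))) /
    (Real.log (Real.log (Real.log x))) ^ 2

/-- `p ≡ a l (mod l)` for all primes `l ∣ q` -/
def InClass (a : ℕ → ℕ) (q p : ℕ) : Prop := ∀ l : ℕ, l.Prime → l ∣ q → p ≡ a l [MOD l]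

/-- At the scale `H` the primes seen from `p` form the set of the `V b`, up to the distance `c H` and up to
errors `ε H`: every prime `p'` with `|p' - p| ≤ c H` has `(p' - p)/H` within `ε` of some `V b`, and for every
`b` some prime `p'` has `(p' - p)/H` within `ε` of `V b`; all these primes are in the class `a` modulo the primes
dividing `q`. -/
def Looks {k : ℕ} (a : ℕ → ℕ) (q : ℕ) (c ε H : ℝ) (V : Fin k → ℝ) (p : ℕ) : Prop :=
  (∀ p' : ℕ, p'.Prime → |(p' : ℝ) - p| ≤ c * H → InClass a q p' ∧ ∃ b, |((p' : ℝ) - p) / H - V b| ≤ ε) ∧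
  (∀ b, ∃ p' : ℕ, p'.Prime ∧ InClass a q p' ∧ |((p' : ℝ) - p) / H - V b| ≤ ε)

/-- Let `a l` be a residue prime to `l` for every prime `l`, and let `H 0, ..., H (r-1)` be functions with
`log X ≤ H i X ≤ f X` for all large `X` and `H i X / H j X → ∞` for `i < j`. There are `K` and `c > 0` such that
for ALL `V i b ∈ [-c, c]` (`i < r`, `b ≤ k`) with `V i 0 = 0`, every squarefree `q` and every `ε > 0` there are
arbitrarily large `X` with at least `X^(7/8)` primes `p ∈ (X, 4X]` which have at most `K` primes within `c f(X)`
and from which, at ALL the scales `H i`, the primes form the set `{V i 0, ..., V i k}`. -/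
theorem result (r k : ℕ) (a : ℕ → ℕ) (ha : ∀ l : ℕ, l.Prime → ¬ l ∣ a l) (H : Fin r → ℝ → ℝ)
    (hH : ∀ i, ∀ᶠ X : ℝ in atTop, Real.log X ≤ H i X ∧ H i X ≤ f X)
    (hHH : ∀ i j : Fin r, i < j → Tendsto (fun X => H i X / H j X) atTop atTop) :
    ∃ K : ℕ, ∃ c : ℝ, 0 < c ∧ ∀ V : Fin r → Fin (k + 1) → ℝ, (∀ i b, |V i b| ≤ c) → (∀ i, V i 0 = 0) →
    ∀ q : ℕ, Squarefree q → ∀ ε : ℝ, 0 < ε → ∀ X₀ : ℝ, ∃ X : ℝ, X₀ ≤ X ∧ X ^ (7 / 8 : ℝ) ≤
      ({p : ℕ | p.Prime ∧ X < p ∧ (p : ℝ) ≤ 4 * X ∧
        {p' : ℕ | p'.Prime ∧ |(p' : ℝ) - p| ≤ c * f X}.ncard ≤ K ∧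
        ∀ i, Looks a q c ε (H i X) (V i) p}.ncard : ℝ) :=
  Pool.Agent.W126.MultiB.multiB r k a ha H hH hHH

end Pool.Agent.Results.MP_3bc45c_nt.SimultaneousShapes
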