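import Mathlib
import Pool.Agent.W301.SS.Out4

/-!
Primes at distance at most `lam (log N) ^ 2` (and at most `lam log N`) to the right of a positive
proportion of the points of most translates of every set of integers, of density down to
`(log log N) ^ 2 / (log N) ^ 4` (respectively `(log log N) ^ 2 / (log N) ^ 2`).

Method: Parseval over the points of the translates, with Vinogradov's estimate on the minor arcs,
the Siegel-Walfisz theorem on the major arcs and the decay of the kernel of the interval; and a
second moment by a sieve bound for pairs of primes.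
-/

set_option autoImplicit false

/-- For all `lam, β > 0` there are `c, C > 0` and `K` such that for all `N ≥ K`, all real `y` with
`lam log N ≤ y ≤ (log N)^3` and every set `A` of at least `C N (log y / y)^2` integers in `[1, N]`
the following holds for all integers `b ∈ [1, N]` outside a set of at most `β N` exceptions: at
least `c |A|` of the points `x = a + b`, `a ∈ A`, have at least `c y / log x` primes in
`(x, x + y]`. -/
theorem Pool.Agent.Results.MP_3bc45c_nt.TranslatesAtCramerScale.result (lam β : ℝ) (hlam : 0 < lam)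
    (hβ : 0 < β) : ∃ c C : ℝ, 0 < c ∧ 0 < C ∧
    ∃ K : ℕ, ∀ N : ℕ, K ≤ N → ∀ y : ℝ, lam * Real.log N ≤ y → y ≤ Real.log N ^ 3 →
    ∀ A : Finset ℕ, A ⊆ Finset.Icc 1 N → C * N * (Real.log y / y) ^ 2 ≤ A.card →
    ∃ E : Finset ℕ, E ⊆ Finset.Icc 1 N ∧ (E.card : ℝ) ≤ β * N ∧
      ∀ b ∈ Finset.Icc 1 N, b ∉ E → c * A.card ≤ (Set.ncard {a : ℕ | a ∈ A ∧
        c * (y / Real.log ((a + b : ℕ) : ℝ)) ≤
        (Nat.primeCounting ⌊((a + b : ℕ) : ℝ) + y⌋₊ : ℝ) - Nat.primeCounting (a + b)} : ℝ) :=
  Pool.Agent.W301.SS.propWindows lam β hlam hβ
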